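import Pool.Agent.W391.PMB.Pole

set_option autoImplicit false

namespace Pool.Agent.W391.PMB

open Set Filter Topology Pool.Agent.W553.PMB

variable {δ : V → V → ℝ} {Λ : ℝ}

/-- `P` is a pole of `φ`. -/
def IsPole (δ : V → V → ℝ) (Λ : ℝ) (φ : V →ₗ[ℝ] ℝ) (P : V) : Prop :=
  φ P ≠ 0 ∧ ∀ Y : V, Y ≠ 0 → φ Y = 0 → δ P Y = Λ / 2

theorem IsPole.ne {φ : V →ₗ[ℝ] ℝ} {P : V} (h : IsPole δ Λ φ P) : P ≠ 0 := by
  rintro rfl
  exact h.1 (map_zero _)

theorem indep_of_dist (E : EMet δ Λ) {x y : V} (hx : x ≠ 0) (hy : y ≠ 0) (h : δ x y = Λ / 2) :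
    LinearIndependent ℝ ![x, y] := by
  by_contra hn
  have := (E.zero x y hx hy).2 hn
  linarith [E.lam]

theorem polar (E : EMet δ Λ) {φ : V →ₗ[ℝ] ℝ} {P : V} (h : IsPole δ Λ φ P) (Z : V) (hZ : Z ≠ 0) :
    δ P Z = Λ / 2 ↔ φ Z = 0 := by
  refine ⟨fun hd => ?_, fun hz => h.2 Z hZ hz⟩
  have hi := indep_of_dist E h.ne hZ hd
  have hne : ∀ y : ℝ, Z + y • P ≠ 0 := by
    intro y hy
    rw [LinearIndependent.pair_iff] at hi
    have := (hi y 1 (by rw [one_smul, add_comm]; exact hy)).2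
    norm_num at this
  have hφ : φ (Z + (-(φ Z / φ P)) • P) = 0 := by
    rw [map_add, map_smul, smul_eq_mul, neg_mul, div_mul_cancel₀ _ h.1]; ring
  have h1 : δ (Z + (-(φ Z / φ P)) • P) P = Λ / 2 := by
    rw [E.symm _ _ (hne _) h.ne]
    exact h.2 _ (hne _) hφ
  have h2 : δ (Z + (0:ℝ) • P) P = Λ / 2 := by
    rw [zero_smul, add_zero, E.symm _ _ hZ h.ne]; exact hd
  have h3 := (uniq E hi).unique h1 h2
  rw [neg_eq_zero, div_eq_zero_iff] at h3
  exact h3.resolve_right h.1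

/-- poles are unique up to scaling. -/
theorem pole_unique (E : EMet δ Λ) {φ : V →ₗ[ℝ] ℝ} {P P' : V} (h : IsPole δ Λ φ P)
    (h' : IsPole δ Λ φ P') : φ P' • P = φ P • P' := by
  by_contra hn
  set Y := φ P' • P - φ P • P' with hY
  have hY0 : Y ≠ 0 := sub_ne_zero.2 hn
  have hφY : φ Y = 0 := by rw [hY, map_sub, map_smul, map_smul, smul_eq_mul, smul_eq_mul]; ring
  have d1 := h.2 Y hY0 hφY
  have d2 := h'.2 Y hY0 hφY
  have hi : LinearIndependent ℝ ![Y, P] :=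
    indep_of_dist E hY0 h.ne (by rw [E.symm _ _ hY0 h.ne]; exact d1)
  have e : P + (-(φ P')⁻¹) • Y = ((φ P')⁻¹ * φ P) • P' := by
    rw [hY, smul_sub, smul_smul, smul_smul, neg_mul, inv_mul_cancel₀ h'.1]
    module
  have h1 : δ (P + (-(φ P')⁻¹) • Y) Y = Λ / 2 := by
    rw [e, E.hom _ _ h'.ne hY0 _ (mul_ne_zero (inv_ne_zero h'.1) h.1)]
    exact d2
  have h2 : δ (P + (0:ℝ) • Y) Y = Λ / 2 := by
    rw [zero_smul, add_zero]; exact d1
  have h3 := (uniq E hi).unique h1 h2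
  rw [neg_eq_zero, inv_eq_zero] at h3
  exact h'.1 h3

theorem pole_eq (E : EMet δ Λ) {φ : V →ₗ[ℝ] ℝ} {P P' : V} (h : IsPole δ Λ φ P)
    (h' : IsPole δ Λ φ P') (p : 0 < φ P) (p' : 0 < φ P') (n : ‖P‖ = 1) (n' : ‖P'‖ = 1) :
    P = P' := by
  have e := pole_unique E h h'
  have e2 := congrArg norm e
  rw [norm_smul, norm_smul, n, n', mul_one, mul_one, Real.norm_of_nonneg p.le,
    Real.norm_of_nonneg p'.le] at e2
  rw [e2] at e
  exact smul_right_injective V p.ne' e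

theorem IsPole.smul (E : EMet δ Λ) {φ : V →ₗ[ℝ] ℝ} {P : V} (h : IsPole δ Λ φ P) {c : ℝ}
    (hc : c ≠ 0) : IsPole δ Λ φ (c • P) := by
  refine ⟨?_, ?_⟩
  · rw [map_smul, smul_eq_mul]; exact mul_ne_zero hc h.1
  · intro Y hY hφ
    rw [E.hom _ _ h.ne hY _ hc]; exact h.2 Y hY hφ

theorem IsPole.neg' {φ : V →ₗ[ℝ] ℝ} {P : V} (h : IsPole δ Λ φ P) : IsPole δ Λ (-φ) P := by
  refine ⟨?_, ?_⟩
  · rw [LinearMap.neg_apply]; exact neg_ne_zero.2 h.1
  · intro Y hY hφ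
    rw [LinearMap.neg_apply, neg_eq_zero] at hφ
    exact h.2 Y hY hφ

theorem exists_pole (E : EMet δ Λ) (h2 : S_pole) {φ : V →ₗ[ℝ] ℝ} (hφ : φ ≠ 0) :
    ∃ P, IsPole δ Λ φ P ∧ ‖P‖ = 1 ∧ 0 < φ P := by
  obtain ⟨P, hP1, hP2⟩ := h2 δ Λ E φ hφ
  have hP : IsPole δ Λ φ P := ⟨hP1, hP2⟩
  have hn : ‖P‖ ≠ 0 := norm_ne_zero_iff.2 hP.ne
  rcases lt_or_gt_of_ne hP1 with h | h
  · refine ⟨(-‖P‖⁻¹) • P, hP.smul E (neg_ne_zero.2 (inv_ne_zero hn)), ?_, ?_⟩
    · rw [norm_smul, norm_neg, norm_inv, norm_norm, inv_mul_cancel₀ hn]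
    · rw [map_smul, smul_eq_mul]
      exact mul_pos_of_neg_of_neg (neg_neg_of_pos (inv_pos.2 (norm_pos_iff.2 hP.ne))) h
  · refine ⟨‖P‖⁻¹ • P, hP.smul E (inv_ne_zero hn), ?_, ?_⟩
    · rw [norm_smul, norm_inv, norm_norm, inv_mul_cancel₀ hn]
    · rw [map_smul, smul_eq_mul]
      exact mul_pos (inv_pos.2 (norm_pos_iff.2 hP.ne)) h

theorem T_bij (h1 : S_le) (h2 : S_pole) : S_bij := by
  intro δ Λ E P hP
  -- a basis `Y, P, X`
  obtain ⟨Z, hZ⟩ := exists_linearIndependent_pair_of_one_lt_finrank (R := ℝ) (M := V)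
    (by simp) hP
  obtain ⟨yy, hyy, -⟩ := uniq E hZ
  obtain ⟨Y, hYdef⟩ : ∃ Y, Y = Z + yy • P := ⟨_, rfl⟩
  have hZ0 : ∀ y : ℝ, Z + y • P ≠ 0 := by
    intro y hy
    rw [LinearIndependent.pair_iff] at hZ
    have := (hZ y 1 (by rw [one_smul, add_comm]; exact hy)).2
    norm_num at this
  have hY : Y ≠ 0 := by rw [hYdef]; exact hZ0 yy
  have hdYP : δ Y P = Λ / 2 := by rw [hYdef]; exact hyy
  have hdPY : δ P Y = Λ / 2 := by rw [E.symm _ _ hP hY]; exact hdYP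
  have hYP : LinearIndependent ℝ ![Y, P] := indep_of_dist E hY hP hdYP
  obtain ⟨X, hX⟩ := exists_linearIndependent_cons_of_lt_finrank (R := ℝ) hYP (by simp)
  let b := basisOfLinearIndependentOfCardEqFinrank hX (by simp)
  have hb0 : b 0 = X := by simp [b]
  have hb1 : b 1 = Y := by simp [b]
  have hb2 : b 2 = P := by simp [b]
  obtain ⟨φ₁, hφ₁⟩ : ∃ φ₁ : V →ₗ[ℝ] ℝ, φ₁ = b.coord 2 := ⟨_, rfl⟩
  obtain ⟨φ₂, hφ₂⟩ : ∃ φ₂ : V →ₗ[ℝ] ℝ, φ₂ = b.coord 0 := ⟨_, rfl⟩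
  obtain ⟨φ₃, hφ₃⟩ : ∃ φ₃ : V →ₗ[ℝ] ℝ, φ₃ = b.coord 1 := ⟨_, rfl⟩
  have h1P : φ₁ P = 1 := by rw [hφ₁, ← hb2]; simp [Module.Basis.coord_apply]
  have h1X : φ₁ X = 0 := by rw [hφ₁, ← hb0]; simp [Module.Basis.coord_apply]
  have h1Y : φ₁ Y = 0 := by rw [hφ₁, ← hb1]; simp [Module.Basis.coord_apply]
  have h2P : φ₂ P = 0 := by rw [hφ₂, ← hb2]; simp [Module.Basis.coord_apply]
  have h2X : φ₂ X = 1 := by rw [hφ₂, ← hb0]; simp [Module.Basis.coord_apply]
  have h2Y : φ₂ Y = 0 := by rw [hφ₂, ← hb1]; simp [Module.Basis.coord_apply]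
  have hrep : ∀ v : V, v = φ₁ v • P + φ₂ v • X + φ₃ v • Y := by
    intro v
    have h := b.sum_repr v
    rw [Fin.sum_univ_three, hb0, hb1, hb2] at h
    rw [hφ₁, hφ₂, hφ₃]
    conv_lhs => rw [← h]
    simp only [Module.Basis.coord_apply]
    abel
  -- the pencil
  obtain ⟨f, hf⟩ : ∃ f : ℝ → (V →ₗ[ℝ] ℝ), ∀ a, f a = Real.cos a • φ₁ + Real.sin a • φ₂ :=
    ⟨_, fun a => rfl⟩
  have hfY : ∀ a, f a Y = 0 := by intro a; rw [hf]; simp [h1Y, h2Y]
  have hfne : ∀ a, f a ≠ 0 := by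
    intro a h
    have e1 := congrArg (fun g : V →ₗ[ℝ] ℝ => g P) h
    have e2 := congrArg (fun g : V →ₗ[ℝ] ℝ => g X) h
    simp only [hf, LinearMap.add_apply, LinearMap.smul_apply, h1P, h2P, h1X, h2X,
      LinearMap.zero_apply, smul_eq_mul, mul_one, mul_zero, add_zero, zero_add] at e1 e2
    have := Real.sin_sq_add_cos_sq a
    rw [e1, e2] at this
    norm_num at this
  choose N hN hN1 hNp using fun a => exists_pole E h2 (hfne a)
  have hfcont : ∀ v : V, Continuous fun a => f a v := by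
    intro v
    have : (fun a => f a v) = fun a => Real.cos a * φ₁ v + Real.sin a * φ₂ v := by
      ext a; rw [hf]; simp
    rw [this]
    exact (Real.continuous_cos.mul_const _).add (Real.continuous_sin.mul_const _)
  have hcont : Continuous N := by
    rw [continuous_iff_seqContinuous]
    intro ak a hak
    apply tendsto_of_subseq_tendsto
    intro ns hns
    have hmem : ∀ k, N (ak (ns k)) ∈ Metric.sphere (0:V) 1 := by
      intro k; rw [mem_sphere_zero_iff_norm]; exact hN1 _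
    obtain ⟨N', hN'1, ms, hms, hN'⟩ := (isCompact_sphere (0:V) 1).tendsto_subseq hmem
    have hN'n : ‖N'‖ = 1 := by rwa [mem_sphere_zero_iff_norm] at hN'1
    have hN'0 : N' ≠ 0 := by rintro rfl; simp at hN'n
    have hlim : Tendsto (fun k => ak (ns (ms k))) atTop (𝓝 a) :=
      hak.comp (hns.comp hms.tendsto_atTop)
    refine ⟨ms, ?_⟩
    have hdist : ∀ Z : V, Z ≠ 0 → f a Z = 0 → δ N' Z = Λ / 2 := by
      intro Z hZ0 hfZ
      -- approximations
      obtain ⟨t, ht⟩ : ∃ t, t = Real.cos a * φ₂ Z - Real.sin a * φ₁ Z := ⟨_, rfl⟩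
      have hZe : Z = t • (Real.cos a • X - Real.sin a • P) + φ₃ Z • Y := by
        have e : Real.cos a * φ₁ Z + Real.sin a * φ₂ Z = 0 := by
          rw [hf] at hfZ; simpa using hfZ
        have cs := Real.sin_sq_add_cos_sq a
        have e1 : φ₁ Z = -t * Real.sin a := by
          rw [ht]
          linear_combination (-φ₁ Z) * cs + Real.cos a * e
        have e2 : φ₂ Z = t * Real.cos a := by
          rw [ht]
          linear_combination (-φ₂ Z) * cs + Real.sin a * e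
        conv_lhs => rw [hrep Z, e1, e2]
        module
      set Zk : ℕ → V := fun k => t • (Real.cos (ak (ns (ms k))) • X - Real.sin (ak (ns (ms k))) • P)
          + φ₃ Z • Y with hZk
      have hZlim : Tendsto Zk atTop (𝓝 Z) := by
        conv_rhs => rw [hZe]
        have c1 := (Real.continuous_cos.tendsto a).comp hlim
        have c2 := (Real.continuous_sin.tendsto a).comp hlim
        exact (((c1.smul_const X).sub (c2.smul_const P)).const_smul t).add_const _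
      have hfk : ∀ k, f (ak (ns (ms k))) (Zk k) = 0 := by
        intro k
        rw [hf, hZk]
        simp [h1P, h2P, h1X, h2X, h1Y, h2Y]
        ring
      have l1 := tendsto_dist E hN'0 hZ0 hN' hZlim
      have l2 : Tendsto (fun k => δ ((N ∘ fun k => ak (ns k)) (ms k)) (Zk k)) atTop
          (𝓝 (Λ / 2)) := by
        refine tendsto_const_nhds.congr' ?_
        filter_upwards [hZlim.eventually_ne hZ0] with k hk
        exact ((hN (ak (ns (ms k)))).2 (Zk k) hk (hfk k)).symm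
      exact tendsto_nhds_unique l1 l2
    have hfN' : f a N' ≠ 0 := by
      intro h
      have := hdist N' hN'0 h
      rw [self_zero E hN'0] at this
      linarith [E.lam]
    have hfN'0 : 0 ≤ f a N' := by
      have l : Tendsto (fun k => Real.cos (ak (ns (ms k))) * φ₁ (N (ak (ns (ms k)))) +
          Real.sin (ak (ns (ms k))) * φ₂ (N (ak (ns (ms k))))) atTop
          (𝓝 (Real.cos a * φ₁ N' + Real.sin a * φ₂ N')) := by
        have c1 := (Real.continuous_cos.tendsto a).comp hlim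
        have c2 := (Real.continuous_sin.tendsto a).comp hlim
        have g1 := ((φ₁.continuous_of_finiteDimensional).tendsto N').comp hN'
        have g2 := ((φ₂.continuous_of_finiteDimensional).tendsto N').comp hN'
        exact (c1.mul g1).add (c2.mul g2)
      have e : f a N' = Real.cos a * φ₁ N' + Real.sin a * φ₂ N' := by rw [hf]; simp
      rw [e]
      refine ge_of_tendsto' l ?_
      intro k
      have := (hNp (ak (ns (ms k)))).le
      rw [hf] at this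
      simpa using this
    have : N' = N a := pole_eq E ⟨hfN', hdist⟩ (hN a) (lt_of_le_of_ne hfN'0 hfN'.symm) (hNp a)
      hN'n (hN1 a)
    rw [← this]
    exact hN'
  have hπ : N (0 + Real.pi) = - N 0 := by
    have e : f (0 + Real.pi) = - f 0 := by
      ext v
      simp [hf]
    have hp : IsPole δ Λ (f (0 + Real.pi)) (-N 0) := by
      rw [e, ← neg_one_smul ℝ (N 0)]
      exact ((hN 0).smul E (by norm_num)).neg'
    refine pole_eq E (hN _) hp (hNp _) ?_ (hN1 _) ?_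
    · rw [e, LinearMap.neg_apply, map_neg, neg_neg]; exact hNp 0
    · rw [norm_neg]; exact hN1 0
  obtain ⟨a, ha⟩ : ∃ a : ℝ, φ₂ (N a) = 0 := by
    have hc : Continuous fun a => φ₂ (N a) := φ₂.continuous_of_finiteDimensional.comp hcont
    rcases le_total (φ₂ (N 0)) 0 with h | h
    · have h' : 0 ≤ φ₂ (N (0 + Real.pi)) := by rw [hπ, map_neg]; linarith
      obtain ⟨a, ha⟩ := mem_range_of_exists_le_of_exists_ge hc ⟨_, h⟩ ⟨_, h'⟩
      exact ⟨a, ha⟩
    · have h' : φ₂ (N (0 + Real.pi)) ≤ 0 := by rw [hπ, map_neg]; linarith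
      obtain ⟨a, ha⟩ := mem_range_of_exists_le_of_exists_ge hc ⟨_, h'⟩ ⟨_, h⟩
      exact ⟨a, ha⟩
  have hNa := hrep (N a)
  rw [ha, zero_smul, add_zero] at hNa
  obtain ⟨M, hM⟩ : ∃ M, M = N a := ⟨_, rfl⟩
  obtain ⟨p, hpdef⟩ : ∃ p, p = φ₁ (N a) := ⟨_, rfl⟩
  obtain ⟨q, hqdef⟩ : ∃ q, q = φ₃ (N a) := ⟨_, rfl⟩
  rw [← hpdef, ← hqdef] at hNa
  have hp0 : p ≠ 0 := by
    intro h
    rw [h, zero_smul, zero_add] at hNa
    apply (hN a).1
    rw [hNa, map_smul, hfY, smul_zero]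
  have hd1 : δ (P + (q / p) • Y) Y = Λ / 2 := by
    have e : P + (q / p) • Y = (p)⁻¹ • N a := by
      conv_rhs => rw [hNa]
      rw [smul_add, smul_smul, smul_smul, inv_mul_cancel₀ hp0, one_smul, div_eq_inv_mul]
    rw [e, E.hom _ _ (hN a).ne hY _ (inv_ne_zero hp0)]
    exact (hN a).2 Y hY (hfY a)
  have hd2 : δ (P + (0:ℝ) • Y) Y = Λ / 2 := by rw [zero_smul, add_zero]; exact hdPY
  have h3 := (uniq E hYP).unique hd1 hd2
  have h4 : q = 0 := by
    rw [div_eq_zero_iff] at h3; exact h3.resolve_right hp0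
  rw [h4, zero_smul, add_zero] at hNa
  have hPole : IsPole δ Λ (f a) P := by
    have e : P = (p)⁻¹ • N a := by
      conv_rhs => rw [hNa]
      rw [smul_smul, inv_mul_cancel₀ hp0, one_smul]
    rw [e]
    exact (hN a).smul E (inv_ne_zero hp0)
  exact ⟨f a, hPole.1, fun Y' hY' => polar E hPole Y' hY'⟩

end Pool.Agent.W391.PMB
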