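import Pool.Agent.W553.PM.StmB

set_option autoImplicit false

namespace Pool.Agent.W391.PMB

open Set Filter Topology Pool.Agent.W553.PMB

variable {δ : V → V → ℝ} {Λ : ℝ}

theorem indep_smul {x y : V} (h : LinearIndependent ℝ ![x, y]) : x ≠ 0 ∧ y ≠ 0 := by
  constructor
  · exact h.ne_zero 0
  · exact h.ne_zero 1

theorem self_zero (E : EMet δ Λ) {x : V} (hx : x ≠ 0) : δ x x = 0 := by
  rw [E.zero x x hx hx]
  intro h
  have := h.injective (a₁ := 0) (a₂ := 1) (by simp)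
  simp at this

/-- existence and uniqueness of the parameter at distance `Λ / 2` on an affine line. -/
theorem uniq (E : EMet δ Λ) {Y Z : V} (h : LinearIndependent ℝ ![Y, Z]) :
    ∃! y : ℝ, δ (Z + y • Y) Y = Λ / 2 := by
  obtain ⟨hY, hZ⟩ := indep_smul h
  have hne : ∀ y : ℝ, Z + y • Y ≠ 0 := by
    intro y hy
    rw [LinearIndependent.pair_iff] at h
    have := (h y 1 (by rw [one_smul, add_comm]; exact hy)).2
    norm_num at this
  obtain ⟨l, hlc, hlm, hl0, hlπ, hl⟩ := E.line Y Z h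
  have hπ : (0:ℝ) ≤ Real.pi := Real.pi_pos.le
  have hd : ∀ t ∈ Icc 0 Real.pi, δ Y (Real.cos t • Y + Real.sin t • Z) = min (l t) (Λ - l t) := by
    intro t ht
    have h1 := hl 0 ⟨le_refl _, hπ⟩ t ht
    have h2 : 0 ≤ l t := by
      rw [← hl0]; exact hlm.monotoneOn ⟨le_refl _, hπ⟩ ht ht.1
    rw [hl0, zero_sub, abs_neg, abs_of_nonneg h2] at h1
    simpa using h1
  have key : ∀ t ∈ Ioo 0 Real.pi, δ (Z + (Real.cos t / Real.sin t) • Y) Y = min (l t) (Λ - l t) := by
    intro t ht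
    have hs : 0 < Real.sin t := Real.sin_pos_of_mem_Ioo ht
    rw [← hd t ⟨ht.1.le, ht.2.le⟩]
    have e : Real.cos t • Y + Real.sin t • Z = Real.sin t • (Z + (Real.cos t / Real.sin t) • Y) := by
      rw [smul_add, smul_smul, mul_div_cancel₀ _ hs.ne', add_comm]
    rw [e, E.symm Y _ hY (smul_ne_zero hs.ne' (hne _)), E.hom _ _ (hne _) hY _ hs.ne']
  obtain ⟨t, ht, hlt⟩ : ∃ t ∈ Icc 0 Real.pi, l t = Λ / 2 := by
    have := intermediate_value_Icc hπ hlc
    rw [hl0, hlπ] at this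
    have h3 := this (show Λ / 2 ∈ Icc 0 Λ from ⟨by linarith [E.lam], by linarith [E.lam]⟩)
    obtain ⟨t, ht, h4⟩ := h3
    exact ⟨t, ht, h4⟩
  have ht' : t ∈ Ioo 0 Real.pi := by
    refine ⟨lt_of_le_of_ne ht.1 ?_, lt_of_le_of_ne ht.2 ?_⟩
    · intro h0; rw [← h0, hl0] at hlt; linarith [E.lam]
    · intro h0; rw [h0, hlπ] at hlt; linarith [E.lam]
  refine ⟨Real.cos t / Real.sin t, ?_, ?_⟩
  · show δ _ _ = _
    rw [key t ht', hlt]
    rw [min_eq_left (by linarith)]
  · intro y hy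
    set r := Real.sqrt (1 + y ^ 2) with hr
    have hr0 : 0 < r := Real.sqrt_pos.2 (by positivity)
    have hr2 : r ^ 2 = 1 + y ^ 2 := Real.sq_sqrt (by positivity)
    set s := Real.arccos (y / r) with hs
    have hyr : |y / r| < 1 := by
      rw [abs_div, abs_of_pos hr0, div_lt_one hr0]
      apply abs_lt_of_sq_lt_sq _ hr0.le
      rw [hr2]; linarith
    have hyr' := abs_lt.1 hyr
    have hcos : Real.cos s = y / r := Real.cos_arccos hyr'.1.le hyr'.2.le
    have hsin : Real.sin s = 1 / r := by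
      rw [hs, Real.sin_arccos]
      rw [Real.sqrt_eq_iff_mul_self_eq_of_pos (by positivity)]
      field_simp
      nlinarith
    have hs' : s ∈ Ioo 0 Real.pi := by
      refine ⟨?_, ?_⟩
      · rw [hs, Real.arccos_pos]; exact hyr'.2
      · refine lt_of_le_of_ne (Real.arccos_le_pi _) ?_
        intro h0
        rw [h0, Real.cos_pi] at hcos
        linarith [hyr'.1]
    have e : Real.cos s / Real.sin s = y := by
      rw [hcos, hsin]; field_simp
    have h5 := key s hs'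
    rw [e] at h5
    have hy' : δ (Z + y • Y) Y = Λ / 2 := hy
    rw [hy'] at h5
    have h6 : l s = Λ / 2 := by
      rcases le_total (l s) (Λ - l s) with h | h
      · rw [min_eq_left h] at h5; exact h5.symm
      · rw [min_eq_right h] at h5; linarith
    have h7 : s = t := hlm.injOn ⟨hs'.1.le, hs'.2.le⟩ ht (by rw [h6, hlt])
    rw [← e, h7]

/-- sequential continuity of the parameter. -/
theorem seqcont (E : EMet δ Λ) {Y Z : V} (h : LinearIndependent ℝ ![Y, Z]) (Zk : ℕ → V)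
    (yk : ℕ → ℝ) (η : ℝ) (hZ : Tendsto Zk atTop (𝓝 Z)) (hne : ∀ k, Zk k + yk k • Y ≠ 0)
    (hk : ∀ k, δ (Zk k + yk k • Y) Y = Λ / 2) (hη : δ (Z + η • Y) Y = Λ / 2) :
    Tendsto yk atTop (𝓝 η) := by
  obtain ⟨hY, hZ0⟩ := indep_smul h
  have hne' : ∀ y : ℝ, Z + y • Y ≠ 0 := by
    intro y hy
    rw [LinearIndependent.pair_iff] at h
    have := (h y 1 (by rw [one_smul, add_comm]; exact hy)).2
    norm_num at this
  apply tendsto_of_subseq_tendsto
  intro ns hns
  have hZn : Tendsto (fun k => Zk (ns k)) atTop (𝓝 Z) := hZ.comp hns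
  by_cases hb : ∃ R : ℝ, ∃ᶠ k in atTop, yk (ns k) ∈ Metric.closedBall (0:ℝ) R
  · obtain ⟨R, hR⟩ := hb
    obtain ⟨y', -, ms, hms, hy'⟩ :=
      tendsto_subseq_of_frequently_bounded (Metric.isBounded_closedBall) hR
    refine ⟨ms, ?_⟩
    have h1 : Tendsto (fun k => Zk (ns (ms k)) + yk (ns (ms k)) • Y) atTop (𝓝 (Z + y' • Y)) :=
      (hZn.comp hms.tendsto_atTop).add (hy'.smul_const Y)
    have h2 : Tendsto (fun k => δ (Zk (ns (ms k)) + yk (ns (ms k)) • Y) Y) atTop
        (𝓝 (δ (Z + y' • Y) Y)) := by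
      have hc := E.cont (Z + y' • Y, Y) ⟨hne' y', hY⟩
      refine Tendsto.comp (f := fun k => (Zk (ns (ms k)) + yk (ns (ms k)) • Y, Y)) hc ?_
      apply tendsto_nhdsWithin_of_tendsto_nhds_of_eventually_within
      · exact h1.prodMk_nhds tendsto_const_nhds
      · exact Eventually.of_forall (fun k => ⟨hne _, hY⟩)
    have h3 : δ (Z + y' • Y) Y = Λ / 2 := by
      refine tendsto_nhds_unique h2 ?_
      have : (fun k => δ (Zk (ns (ms k)) + yk (ns (ms k)) • Y) Y) = fun _ => Λ / 2 := by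
        ext k; exact hk _
      rw [this]; exact tendsto_const_nhds
    have h4 : y' = η := (uniq E h).unique h3 hη
    rw [← h4]
    exact hy'
  · exfalso
    push Not at hb
    have hb' : ∀ R : ℝ, ∀ᶠ k in atTop, R < |yk (ns k)| := by
      intro R
      have := hb R
      filter_upwards [this] with k hk
      simpa using hk
    have habs : Tendsto (fun k => |yk (ns k)|) atTop atTop := by
      rw [tendsto_atTop]
      intro R
      filter_upwards [hb' R] with k hk using hk.le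
    have hinv : Tendsto (fun k => (yk (ns k))⁻¹) atTop (𝓝 0) := by
      rw [tendsto_zero_iff_abs_tendsto_zero]
      have := habs.inv_tendsto_atTop
      refine this.congr ?_
      intro k
      simp
    have h1 : Tendsto (fun k => (yk (ns k))⁻¹ • Zk (ns k) + Y) atTop (𝓝 Y) := by
      have := (hinv.smul hZn).add_const Y
      simpa using this
    have h0 : ∀ᶠ k in atTop, yk (ns k) ≠ 0 := by
      filter_upwards [hb' 0] with k hk
      exact abs_pos.1 hk
    have e : ∀ᶠ k in atTop, (yk (ns k))⁻¹ • Zk (ns k) + Y =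
        (yk (ns k))⁻¹ • (Zk (ns k) + yk (ns k) • Y) := by
      filter_upwards [h0] with k hk
      rw [smul_add, smul_smul, inv_mul_cancel₀ hk, one_smul]
    have h2 : Tendsto (fun k => δ ((yk (ns k))⁻¹ • Zk (ns k) + Y) Y) atTop (𝓝 (δ Y Y)) := by
      have hc := E.cont (Y, Y) ⟨hY, hY⟩
      refine Tendsto.comp (f := fun k => ((yk (ns k))⁻¹ • Zk (ns k) + Y, Y)) hc ?_
      apply tendsto_nhdsWithin_of_tendsto_nhds_of_eventually_within
      · exact h1.prodMk_nhds tendsto_const_nhds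
      · filter_upwards [e, h0] with k hk hk0
        refine ⟨?_, hY⟩
        show (yk (ns k))⁻¹ • Zk (ns k) + Y ≠ 0
        rw [hk]
        exact smul_ne_zero (inv_ne_zero hk0) (hne _)
    have h3 : Tendsto (fun k => δ ((yk (ns k))⁻¹ • Zk (ns k) + Y) Y) atTop (𝓝 (Λ / 2)) := by
      refine tendsto_const_nhds.congr' ?_
      filter_upwards [e, h0] with k hk1 hk0
      rw [hk1, E.hom _ _ (hne _) hY _ (inv_ne_zero hk0), hk]
    have := tendsto_nhds_unique h2 h3
    rw [self_zero E hY] at this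
    linarith [E.lam]

theorem hF_smul (E : EMet δ Λ) (φ : V →ₗ[ℝ] ℝ) {X : V} (hX : X ≠ 0) {c : ℝ} (hc : c ≠ 0) :
    hF δ φ (c • X) = hF δ φ X := by
  unfold hF
  congr 1
  apply Set.image_congr
  intro Y hY
  exact E.hom _ _ hX hY.1 _ hc

/-- continuity of `δ` along sequences. -/
theorem tendsto_dist (E : EMet δ Λ) {x y : V} (hx : x ≠ 0) (hy : y ≠ 0) {xk yk : ℕ → V}
    (hxk : Tendsto xk atTop (𝓝 x)) (hyk : Tendsto yk atTop (𝓝 y)) :
    Tendsto (fun k => δ (xk k) (yk k)) atTop (𝓝 (δ x y)) := by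
  have hc := E.cont (x, y) ⟨hx, hy⟩
  refine Tendsto.comp (f := fun k => (xk k, yk k)) hc ?_
  apply tendsto_nhdsWithin_of_tendsto_nhds_of_eventually_within
  · exact hxk.prodMk_nhds hyk
  · filter_upwards [hxk.eventually_ne hx, hyk.eventually_ne hy] with k h1 h2
    exact ⟨h1, h2⟩

/-- the situation at infinity. -/
theorem noend (E : EMet δ Λ) (h1 : S_le) {φ ψ : V →ₗ[ℝ] ℝ} {w0 ω Y : V}
    (hφ : φ ≠ 0) (hφw : φ w0 = 1) (hφω : φ ω = 0) (hφY : φ Y = 0)
    (hψw : ψ w0 = 0) (hψω : ψ ω = 1) (hψY : ψ Y = 0)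
    (hYω : LinearIndependent ℝ ![Y, ω]) (hωY : δ ω Y = Λ / 2)
    (c y : ℕ → ℝ) (hc : Tendsto (fun k => |c k|) atTop atTop) (hc0 : ∀ k, c k ≠ 0)
    (hd : ∀ k, δ (w0 + c k • ω + y k • Y) Y = Λ / 2)
    (θ : ℕ → V) (hθ : ∀ k, Foot δ φ (w0 + c k • ω + y k • Y) (θ k))
    (hs : ∀ k, c k * ψ (θ k) < 0) : False := by
  obtain ⟨le1, le2, le3, le4, le5⟩ := h1 δ Λ E
  obtain ⟨hY, hω⟩ := indep_smul hYω
  have hψ : ψ ≠ 0 := by
    intro h; rw [h] at hψω; simp at hψω
  set w : ℕ → V := fun k => w0 + c k • ω + y k • Y with hw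
  have hφwk : ∀ k, φ (w k) = 1 := by
    intro k; simp [hw, hφw, hφω, hφY]
  have hψwk : ∀ k, ψ (w k) = c k := by
    intro k; simp [hw, hψw, hψω, hψY]
  have hwne : ∀ k, w k ≠ 0 := by
    intro k h; have := hφwk k; rw [h] at this; simp at this
  have hcinv : Tendsto (fun k => (c k)⁻¹) atTop (𝓝 0) := by
    rw [tendsto_zero_iff_abs_tendsto_zero]
    refine hc.inv_tendsto_atTop.congr ?_
    intro k; simp
  -- the limit of `w k / c k`
  have e : ∀ k, (c k)⁻¹ • w k = ((c k)⁻¹ • w0 + ω) + ((c k)⁻¹ * y k) • Y := by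
    intro k
    simp only [hw, smul_add, smul_smul]
    rw [inv_mul_cancel₀ (hc0 k), one_smul]
  have hZ : Tendsto (fun k => (c k)⁻¹ • w0 + ω) atTop (𝓝 ω) := by
    have := (hcinv.smul_const w0).add_const ω
    simpa using this
  have hy0 : Tendsto (fun k => (c k)⁻¹ * y k) atTop (𝓝 0) := by
    apply seqcont E hYω (fun k => (c k)⁻¹ • w0 + ω) _ 0 hZ
    · intro k
      rw [← e k]
      exact smul_ne_zero (inv_ne_zero (hc0 k)) (hwne k)
    · intro k
      rw [← e k, E.hom _ _ (hwne k) hY _ (inv_ne_zero (hc0 k))]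
      exact hd k
    · simpa using hωY
  have hlim : Tendsto (fun k => (c k)⁻¹ • w k) atTop (𝓝 ω) := by
    have : Tendsto (fun k => ((c k)⁻¹ • w0 + ω) + ((c k)⁻¹ * y k) • Y) atTop
        (𝓝 (ω + (0:ℝ) • Y)) := hZ.add (hy0.smul_const Y)
    rw [zero_smul, add_zero] at this
    refine this.congr ?_
    intro k; exact (e k).symm
  have hne : ∀ k, (c k)⁻¹ • w k ≠ 0 := fun k => smul_ne_zero (inv_ne_zero (hc0 k)) (hwne k)
  -- distances
  have hA : Tendsto (fun k => δ ((c k)⁻¹ • w k) ω) atTop (𝓝 0) := by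
    have := tendsto_dist E hω hω hlim (tendsto_const_nhds (x := ω))
    rwa [self_zero E hω] at this
  have hB : Tendsto (fun k => hF δ ψ ((c k)⁻¹ • w k)) atTop (𝓝 (hF δ ψ ω)) := by
    have hcc := le4 ψ hψ ω hω
    refine Tendsto.comp (f := fun k => (c k)⁻¹ • w k) hcc ?_
    apply tendsto_nhdsWithin_of_tendsto_nhds_of_eventually_within
    · exact hlim
    · exact Eventually.of_forall hne
  have hle : ∀ k, hF δ ψ ((c k)⁻¹ • w k) ≤ δ ((c k)⁻¹ • w k) ω := by
    intro k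
    rw [hF_smul E ψ (hwne k) (inv_ne_zero (hc0 k)), E.hom _ _ (hwne k) hω _ (inv_ne_zero (hc0 k))]
    obtain ⟨hθ0, hφθ, hθF, hθr⟩ := hθ k
    have hψθ : ψ (θ k) ≠ 0 := by
      intro h; have := hs k; rw [h] at this; simp at this
    set r := - c k / ψ (θ k) with hr
    have hr0 : 0 ≤ r := by
      rw [hr]
      have := hs k
      rcases lt_or_gt_of_ne hψθ with h | h
      · apply div_nonneg_of_nonpos _ h.le
        nlinarith
      · apply div_nonneg _ h.le
        nlinarith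
    have hψZ : ψ (w k + r • θ k) = 0 := by
      rw [map_add, map_smul, hψwk, hr, smul_eq_mul, div_mul_cancel₀ _ hψθ]; ring
    have hφZ : φ (w k + r • θ k) = 1 := by
      rw [map_add, map_smul, hφwk, hφθ]; simp
    have hZne : w k + r • θ k ≠ 0 := by
      intro h; rw [h] at hφZ; simp at hφZ
    have a1 := le3 ψ hψ (w k) (w k + r • θ k) (hwne k) hZne hψZ
    have a2 := hθr r hr0
    have a3 := (le1 (w k + r • θ k) (θ k) hZne hθ0).1
    have a4 := le3 φ hφ (w k) ω (hwne k) hω hφω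
    have a2' : δ (w k) (w k + r • θ k) + δ (w k + r • θ k) (θ k) = δ (w k) (θ k) := a2
    have a5 : δ (w k) (θ k) = hF δ φ (w k) := hθF
    linarith
  have h0 := le_of_tendsto_of_tendsto' hB hA hle
  have := le5 ψ hψ ω (by rw [hψω]; exact one_ne_zero)
  linarith

theorem T_pole (h1 : S_le) (h2 : S_foot) (h3 : S_sector) : S_pole := by
  intro δ Λ E φ hφ
  obtain ⟨le1, le2, le3, le4, le5⟩ := h1 δ Λ E
  obtain ⟨f1, f2, f3, f4, f5⟩ := h2 δ Λ E φ hφ
  have hsec := h3 δ Λ E φ hφ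
  by_contra hcon
  have hlt : ∀ w : V, φ w ≠ 0 → hF δ φ w < Λ / 2 := by
    intro w hw
    by_contra h
    apply hcon
    refine ⟨w, hw, ?_⟩
    intro Y hY hφY
    have hw0 : w ≠ 0 := by rintro rfl; simp at hw
    have a := le3 φ hφ w Y hw0 hY hφY
    have b := (le1 w Y hw0 hY).2
    push Not at h
    linarith
  -- the point `w0`
  obtain ⟨v, hv⟩ : ∃ v : V, φ v ≠ 0 := by
    by_contra h
    push Not at h
    exact hφ (LinearMap.ext h)
  obtain ⟨w0, hφw⟩ : ∃ w0 : V, φ w0 = 1 := ⟨(φ v)⁻¹ • v, by rw [map_smul, smul_eq_mul, inv_mul_cancel₀ hv]⟩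
  -- a basis of the kernel
  obtain ⟨Y, Y2, hYY, hφY, hφY2⟩ : ∃ Y Y2 : V, LinearIndependent ℝ ![Y, Y2] ∧ φ Y = 0 ∧ φ Y2 = 0 := by
    have hfr : Module.finrank ℝ (LinearMap.ker φ) = 2 := by
      have h := LinearMap.finrank_range_add_finrank_ker φ
      have hr : LinearMap.range φ = ⊤ := by
        rw [LinearMap.range_eq_top]
        intro t
        exact ⟨t • w0, by rw [map_smul, hφw, smul_eq_mul, mul_one]⟩
      rw [hr] at h
      simp at h
      omega
    let b := Module.finBasisOfFinrankEq ℝ (LinearMap.ker φ) hfr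
    refine ⟨(b 0 : V), (b 1 : V), ?_, (b 0).2, (b 1).2⟩
    have hb := b.linearIndependent.map' (LinearMap.ker φ).subtype (Submodule.ker_subtype _)
    have he : (![(b 0 : V), (b 1 : V)] : Fin 2 → V) = (LinearMap.ker φ).subtype ∘ b := by
      funext i
      fin_cases i <;> rfl
    rw [he]
    exact hb
  obtain ⟨yy, hyy, -⟩ := uniq E hYY
  set ω : V := Y2 + yy • Y with hω
  have hωY : δ ω Y = Λ / 2 := hyy
  have hφω : φ ω = 0 := by rw [hω, map_add, map_smul, hφY, hφY2]; simp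
  have hYω : LinearIndependent ℝ ![Y, ω] := by
    rw [LinearIndependent.pair_iff] at hYY ⊢
    intro s t hst
    have := hYY (s + t * yy) t (by rw [← hst, hω]; module)
    obtain ⟨a, b⟩ := this
    refine ⟨?_, b⟩
    rw [b] at a; simpa using a
  obtain ⟨hY, hω0⟩ := indep_smul hYω
  -- the coordinates
  have hind : LinearIndependent ℝ ![w0, ω, Y] := by
    rw [LinearIndependent.pair_iff] at hYω
    rw [Fintype.linearIndependent_iff]
    intro g hg
    simp only [Fin.sum_univ_three, Matrix.cons_val_zero, Matrix.cons_val_one, Matrix.cons_val_two,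
      Matrix.head_cons, Matrix.tail_cons] at hg
    have g0 : g 0 = 0 := by
      have := congrArg φ hg
      simpa [hφw, hφω, hφY] using this
    have := hYω (g 2) (g 1) (by
      rw [← hg, g0, zero_smul, zero_add]
      exact add_comm _ _)
    intro i
    fin_cases i
    · exact g0
    · exact this.2
    · exact this.1
  let b := basisOfLinearIndependentOfCardEqFinrank hind (by simp)
  have hb0 : b 0 = w0 := by simp [b]
  have hb1 : b 1 = ω := by simp [b]
  have hb2 : b 2 = Y := by simp [b]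
  obtain ⟨ψ, hψdef⟩ : ∃ ψ : V →ₗ[ℝ] ℝ, ψ = b.coord 1 := ⟨_, rfl⟩
  obtain ⟨χ, hχdef⟩ : ∃ χ : V →ₗ[ℝ] ℝ, χ = b.coord 2 := ⟨_, rfl⟩
  have hψw : ψ w0 = 0 := by rw [hψdef, ← hb0]; simp [Module.Basis.coord_apply]
  have hψω : ψ ω = 1 := by rw [hψdef, ← hb1]; simp [Module.Basis.coord_apply]
  have hψY : ψ Y = 0 := by rw [hψdef, ← hb2]; simp [Module.Basis.coord_apply]
  have hker : ∀ θ : V, φ θ = 0 → θ = ψ θ • ω + χ θ • Y := by
    intro θ hθ
    have h := b.sum_repr θ
    rw [Fin.sum_univ_three, hb0, hb1, hb2] at h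
    have e0 : b.repr θ 0 = 0 := by
      have := congrArg φ h
      rw [map_add, map_add, map_smul, map_smul, map_smul, hφw, hφω, hφY, hθ] at this
      simpa using this
    rw [e0, zero_smul, zero_add] at h
    rw [hψdef, hχdef]
    exact h.symm
  -- the curve
  have hiA : ∀ c : ℝ, LinearIndependent ℝ ![Y, w0 + c • ω] := by
    intro c
    rw [LinearIndependent.pair_iff]
    intro s t hst
    have ht : t = 0 := by
      have := congrArg φ hst
      simpa [hφw, hφω, hφY] using this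
    rw [ht, zero_smul, add_zero] at hst
    exact ⟨(smul_eq_zero.1 hst).resolve_right hY, ht⟩
  choose y hy _ using fun c => uniq E (hiA c)
  have hy' : ∀ c, δ (w0 + c • ω + y c • Y) Y = Λ / 2 := hy
  set A : ℝ → V := fun c => w0 + c • ω + y c • Y with hA
  have hφA : ∀ c, φ (A c) = 1 := by
    intro c; simp [hA, hφw, hφω, hφY]
  have hφA' : ∀ c, φ (A c) ≠ 0 := fun c => by rw [hφA]; exact one_ne_zero
  have hAne : ∀ c, A c ≠ 0 := by
    intro c h; have := hφA c; rw [h] at this; simp at this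
  have hAY : ∀ c, δ (A c) Y = Λ / 2 := hy'
  have hyseq : ∀ (ck : ℕ → ℝ) (c : ℝ), Tendsto ck atTop (𝓝 c) →
      Tendsto (fun k => A (ck k)) atTop (𝓝 (A c)) := by
    intro ck c hck
    have hZ : Tendsto (fun k => w0 + ck k • ω) atTop (𝓝 (w0 + c • ω)) :=
      (hck.smul_const ω).const_add w0
    have := seqcont E (hiA c) (fun k => w0 + ck k • ω) (fun k => y (ck k)) (y c) hZ
      (fun k => hAne (ck k)) (fun k => hAY (ck k)) (hAY c)
    exact hZ.add (this.smul_const Y)
  -- feet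
  have hfoot : ∀ c θ, Foot δ φ (A c) θ → ψ θ ≠ 0 := by
    intro c θ hθ h0
    obtain ⟨hθ0, hφθ, hθF, -⟩ := hθ
    have e := hker θ hφθ
    rw [h0, zero_smul, zero_add] at e
    have hχ : χ θ ≠ 0 := by
      intro h; rw [h, zero_smul] at e; exact hθ0 e
    have : δ (A c) θ = Λ / 2 := by
      rw [E.symm _ _ (hAne c) hθ0, e, E.hom _ _ hY (hAne c) _ hχ, E.symm _ _ hY (hAne c)]
      exact hAY c
    have h2 := hlt (A c) (hφA' c)
    rw [← hθF, this] at h2
    exact lt_irrefl _ h2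
  have hno : ∀ c θ₁ θ₂, Foot δ φ (A c) θ₁ → Foot δ φ (A c) θ₂ → 0 < ψ θ₁ → ψ θ₂ < 0 → False := by
    intro c θ₁ θ₂ hθ₁ hθ₂ p1 p2
    by_cases hi : LinearIndependent ℝ ![θ₁, θ₂]
    · have := hsec (A c) (hφA' c) (hlt _ (hφA' c)) θ₁ θ₂ hθ₁ hθ₂ hi (-ψ θ₂) (ψ θ₁) (by linarith) p1
      apply hfoot c _ this
      rw [map_add, map_smul, map_smul, smul_eq_mul, smul_eq_mul]
      ring
    · rw [LinearIndependent.pair_iff' hθ₁.1] at hi
      push Not at hi
      obtain ⟨a, ha⟩ := hi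
      have ha0 : a < 0 := by
        have : ψ θ₂ = a * ψ θ₁ := by rw [← ha, map_smul, smul_eq_mul]
        by_contra h
        push Not at h
        nlinarith
      have hf : Foot δ φ (A c) (-θ₁) := by
        have := (f3 (A c) θ₂ (hφA' c) hθ₂ (-a)⁻¹ (inv_pos.2 (by linarith))).1
        rw [← ha, smul_smul] at this
        have e : (-a)⁻¹ * a = -1 := by
          have : a ≠ 0 := ha0.ne
          field_simp
        rwa [e, neg_one_smul] at this
      have := f2 (A c) θ₁ (hφA' c) hθ₁ hf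
      have h2 := hlt (A c) (hφA' c)
      linarith
  -- closedness
  have hclosed : ∀ s : ℝ, (s = 1 ∨ s = -1) →
      IsClosed {c : ℝ | ∃ θ, Foot δ φ (A c) θ ∧ 0 < s * ψ θ} := by
    intro s hs
    apply IsSeqClosed.isClosed
    intro ck c hck hlim
    choose θ hθ hθs using hck
    have hnθ : ∀ k, ‖θ k‖ ≠ 0 := fun k => norm_ne_zero_iff.2 (hθ k).1
    set η : ℕ → V := fun k => ‖θ k‖⁻¹ • θ k with hη
    have hη1 : ∀ k, η k ∈ Metric.sphere (0:V) 1 := by
      intro k
      rw [mem_sphere_zero_iff_norm, hη]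
      simp only [norm_smul, norm_inv, norm_norm]
      exact inv_mul_cancel₀ (hnθ k)
    have hηf : ∀ k, Foot δ φ (A (ck k)) (η k) := fun k =>
      (f3 _ _ (hφA' _) (hθ k) _ (inv_pos.2 (lt_of_le_of_ne (norm_nonneg _) (hnθ k).symm))).1
    have hηs : ∀ k, 0 ≤ s * ψ (η k) := by
      intro k
      have : s * ψ (η k) = ‖θ k‖⁻¹ * (s * ψ (θ k)) := by
        simp only [hη, map_smul, smul_eq_mul]; ring
      rw [this]
      exact mul_nonneg (inv_nonneg.2 (norm_nonneg _)) (hθs k).le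
    obtain ⟨η', hη'1, ms, hms, hη'⟩ := (isCompact_sphere (0:V) 1).tendsto_subseq hη1
    have hη'0 : η' ≠ 0 := by
      rintro rfl
      simp at hη'1
    have hfoot' : Foot δ φ (A c) η' := by
      refine f5 (fun k => A (ck (ms k))) (fun k => η (ms k)) (A c) η' ?_ hη' (hφA' c) hη'0
        (fun k => hηf _)
      exact hyseq (fun k => ck (ms k)) c (hlim.comp hms.tendsto_atTop)
    refine ⟨η', hfoot', ?_⟩
    have hψc : Continuous ψ := ψ.continuous_of_finiteDimensional
    have hl2 : Tendsto (fun k => s * ψ (η (ms k))) atTop (𝓝 (s * ψ η')) :=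
      ((hψc.tendsto η').comp hη').const_mul s
    have h0 : 0 ≤ s * ψ η' := ge_of_tendsto' hl2 (fun k => hηs _)
    refine lt_of_le_of_ne h0 (Ne.symm (mul_ne_zero ?_ (hfoot c η' hfoot')))
    rcases hs with rfl | rfl <;> norm_num
  -- connectedness
  have hcl1 := hclosed 1 (Or.inl rfl)
  have hcl2 := hclosed (-1) (Or.inr rfl)
  have hcompl : {c : ℝ | ∃ θ, Foot δ φ (A c) θ ∧ 0 < (1:ℝ) * ψ θ}ᶜ =
      {c : ℝ | ∃ θ, Foot δ φ (A c) θ ∧ 0 < (-1:ℝ) * ψ θ} := by
    ext c
    constructor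
    · intro hc
      obtain ⟨θ, hθ⟩ := f1 (A c) (hφA' c)
      refine ⟨θ, hθ, ?_⟩
      have h0 := hfoot c θ hθ
      by_contra h
      apply hc
      refine ⟨θ, hθ, ?_⟩
      rcases lt_or_gt_of_ne h0 with h' | h'
      · exfalso; apply h; linarith
      · linarith
    · rintro ⟨θ₂, hθ₂, p2⟩ ⟨θ₁, hθ₁, p1⟩
      exact hno c θ₁ θ₂ hθ₁ hθ₂ (by linarith) (by linarith)
  have hclopen : IsClopen {c : ℝ | ∃ θ, Foot δ φ (A c) θ ∧ 0 < (1:ℝ) * ψ θ} := by
    refine ⟨hcl1, ?_⟩
    rw [← isClosed_compl_iff, hcompl]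
    exact hcl2
  have hcast : Tendsto (fun k : ℕ => |((k:ℝ) + 1)|) atTop atTop := by
    refine (tendsto_atTop_add_const_right atTop (1:ℝ) tendsto_natCast_atTop_atTop).congr ?_
    intro k
    rw [abs_of_nonneg (by positivity)]
  rcases isClopen_iff.1 hclopen with h | h
  · -- all feet have negative coordinate
    have hall : ∀ c : ℝ, ∃ θ, Foot δ φ (A c) θ ∧ 0 < (-1:ℝ) * ψ θ := by
      intro c
      have : c ∈ {c : ℝ | ∃ θ, Foot δ φ (A c) θ ∧ 0 < (-1:ℝ) * ψ θ} := by
        rw [← hcompl, h]; simp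
      exact this
    choose θ hθ hθs using hall
    exact noend E h1 hφ hφw hφω hφY hψw hψω hψY hYω hωY (fun k : ℕ => (k:ℝ) + 1)
      (fun k : ℕ => y ((k:ℝ) + 1)) hcast (fun k => by positivity) (fun k => hAY _)
      (fun k : ℕ => θ ((k:ℝ) + 1)) (fun k => hθ _)
      (fun k => mul_neg_of_pos_of_neg (by positivity) (by linarith [hθs ((k:ℝ) + 1)]))
  · have hall : ∀ c : ℝ, ∃ θ, Foot δ φ (A c) θ ∧ 0 < (1:ℝ) * ψ θ := by
      intro c
      have : c ∈ {c : ℝ | ∃ θ, Foot δ φ (A c) θ ∧ 0 < (1:ℝ) * ψ θ} := by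
        rw [h]; trivial
      exact this
    choose θ hθ hθs using hall
    exact noend E h1 hφ hφw hφω hφY hψw hψω hψY hYω hωY (fun k : ℕ => -((k:ℝ) + 1))
      (fun k : ℕ => y (-((k:ℝ) + 1))) (hcast.congr (fun k => (abs_neg _).symm))
      (fun k => neg_ne_zero.2 (by positivity)) (fun k => hAY _)
      (fun k : ℕ => θ (-((k:ℝ) + 1))) (fun k => hθ _)
      (fun k => mul_neg_of_neg_of_pos (neg_neg_of_pos (by positivity))
        (by linarith [hθs (-((k:ℝ) + 1))]))

end Pool.Agent.W391.PMB
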