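import Pool.Agent.W553.PM.StmB

set_option autoImplicit false

namespace Pool.Agent.W391.PMB.Tr

open Set Filter Topology Pool.Agent.W553.PMB

/-- normalisation -/
noncomputable def N (x : V) : V := ‖x‖⁻¹ • x

theorem N_mem {x : V} (hx : x ≠ 0) : N x ∈ Metric.sphere (0:V) 1 := by
  rw [mem_sphere_zero_iff_norm, N, norm_smul, norm_inv, norm_norm,
    inv_mul_cancel₀ (norm_ne_zero_iff.2 hx)]

theorem N_smul_pos {x : V} {c : ℝ} (hc : 0 < c) : N (c • x) = N x := by
  rw [N, N, norm_smul, Real.norm_of_nonneg hc.le, smul_smul]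
  congr 1
  rw [mul_inv, mul_right_comm, inv_mul_cancel₀ hc.ne', one_mul]

theorem N_neg (x : V) : N (-x) = - N x := by
  rw [N, N, norm_neg, smul_neg]

theorem N_smul {x : V} {c : ℝ} (hc : c ≠ 0) : N (c • x) = N x ∨ N (c • x) = - N x := by
  rcases lt_or_gt_of_ne hc with h | h
  · right
    have : c • x = -((-c) • x) := by module
    rw [this, N_neg, N_smul_pos (by linarith)]
  · left; exact N_smul_pos h

theorem N_of_mem {x : V} (hx : x ∈ Metric.sphere (0:V) 1) : N x = x := by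
  rw [mem_sphere_zero_iff_norm] at hx
  rw [N, hx, inv_one, one_smul]

theorem ne_of_mem {x : V} (hx : x ∈ Metric.sphere (0:V) 1) : x ≠ 0 := by
  rintro rfl; simp at hx

theorem neg_mem' {x : V} (hx : x ∈ Metric.sphere (0:V) 1) : -x ∈ Metric.sphere (0:V) 1 := by
  rw [mem_sphere_zero_iff_norm] at *
  rwa [norm_neg]

variable {d : V → V → ℝ} {L : ℝ}

theorem neg2 (B : FB d L) {x y : V} (hx : x ∈ Metric.sphere (0:V) 1)
    (hy : y ∈ Metric.sphere (0:V) 1) : d x (-y) = d x y := by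
  rw [B.symm x hx (-y) (neg_mem' hy), B.neg y hy x hx, B.symm y hy x hx]

theorem pm (B : FB d L) {x x' y y' : V} (hx : x ∈ Metric.sphere (0:V) 1)
    (hy : y ∈ Metric.sphere (0:V) 1) (h1 : x' = x ∨ x' = -x) (h2 : y' = y ∨ y' = -y) :
    d x' y' = d x y := by
  rcases h1 with rfl | rfl <;> rcases h2 with rfl | rfl
  · rfl
  · exact neg2 B hx hy
  · exact B.neg x hx _ hy
  · rw [B.neg x hx _ (neg_mem' hy), neg2 B hx hy]

theorem nonneg (B : FB d L) {x y : V} (hx : x ∈ Metric.sphere (0:V) 1)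
    (hy : y ∈ Metric.sphere (0:V) 1) : 0 ≤ d x y := by
  have h := B.tri x hx y hy x hx
  rw [(B.zero x hx x hx).2 (Or.inl rfl), B.symm y hy x hx] at h
  linarith

theorem zero' (B : FB d L) (x y : V) (hx : x ≠ 0) (hy : y ≠ 0) :
    d (N x) (N y) = 0 ↔ ¬ LinearIndependent ℝ ![x, y] := by
  rw [B.zero _ (N_mem hx) _ (N_mem hy)]
  have nx : ‖x‖⁻¹ ≠ 0 := inv_ne_zero (norm_ne_zero_iff.2 hx)
  constructor
  · rintro (h | h) hi
    · rw [LinearIndependent.pair_iff] at hi
      have := (hi ‖x‖⁻¹ (-‖y‖⁻¹) (by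
        have h' : ‖x‖⁻¹ • x = ‖y‖⁻¹ • y := h
        rw [h', neg_smul, add_neg_cancel])).1
      exact nx this
    · rw [LinearIndependent.pair_iff] at hi
      have := (hi ‖x‖⁻¹ (‖y‖⁻¹) (by
        have h' : ‖x‖⁻¹ • x = -(‖y‖⁻¹ • y) := h
        rw [h', neg_add_cancel])).1
      exact nx this
  · intro hi
    rw [LinearIndependent.pair_iff' hx] at hi
    push Not at hi
    obtain ⟨a, rfl⟩ := hi
    have ha : a ≠ 0 := by rintro rfl; simp at hy
    rcases N_smul (x := x) ha with h | h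
    · left; exact h.symm
    · right; rw [h, neg_neg]

theorem cont' (B : FB d L) :
    ContinuousOn (fun p : V × V => d (N p.1) (N p.2)) {p | p.1 ≠ 0 ∧ p.2 ≠ 0} := by
  have hN : ∀ x : V, x ≠ 0 → ContinuousAt N x := by
    intro x hx
    exact (continuousAt_id.norm.inv₀ (norm_ne_zero_iff.2 hx)).smul continuousAt_id
  have hd : ∀ x : V, x ≠ 0 → ∀ r : ℝ, 0 < r → ∀ᶠ z in 𝓝 x, z ≠ 0 → d (N x) (N z) < r := by
    intro x hx r hr
    have h1 := (B.basis (N x) (N_mem hx)).mem_of_mem hr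
    have h2 : {y | y ∈ Metric.sphere (0 : V) 1 ∧ d (N x) y < r} ∈
        nhdsWithin (N x) (Metric.sphere (0:V) 1) := (le_sup_left : nhdsWithin (N x) (Metric.sphere (0:V) 1) ≤ _) h1
    rw [mem_nhdsWithin_iff_eventually] at h2
    have h3 := (hN x hx).eventually h2
    filter_upwards [h3] with z hz hz0
    exact (hz (N_mem hz0)).2
  rintro ⟨x, y⟩ ⟨hx, hy⟩
  rw [ContinuousWithinAt, Metric.tendsto_nhdsWithin_nhds]
  intro ε hε
  have h1 := hd x hx (ε / 2) (by linarith)
  have h2 := hd y hy (ε / 2) (by linarith)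
  rw [Metric.eventually_nhds_iff] at h1 h2
  obtain ⟨r1, hr1, h1⟩ := h1
  obtain ⟨r2, hr2, h2⟩ := h2
  refine ⟨min r1 r2, lt_min hr1 hr2, ?_⟩
  rintro ⟨a, b⟩ ⟨ha, hb⟩ hab
  rw [Prod.dist_eq, max_lt_iff] at hab
  have ha' : a ≠ 0 := ha
  have hb' : b ≠ 0 := hb
  have k1 := h1 (lt_of_lt_of_le hab.1 (min_le_left _ _)) ha'
  have k2 := h2 (lt_of_lt_of_le hab.2 (min_le_right _ _)) hb'
  show dist (d (N a) (N b)) (d (N x) (N y)) < ε
  rw [Real.dist_eq, abs_sub_lt_iff]
  have mx := N_mem hx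
  have my := N_mem hy
  have ma := N_mem ha'
  have mb := N_mem hb'
  have t1 := B.tri _ ma _ mx _ mb
  have t2 := B.tri _ mx _ my _ mb
  have t3 := B.tri _ mx _ ma _ my
  have t4 := B.tri _ ma _ mb _ my
  have s1 := B.symm _ ma _ mx
  have s2 := B.symm _ mb _ my
  constructor <;> linarith

theorem exists_normal {x y : V} (h : LinearIndependent ℝ ![x, y]) :
    ∃ n : V, n ≠ 0 ∧ inner ℝ n x = 0 ∧ inner ℝ n y = 0 ∧
      ∀ z : V, inner ℝ n z = 0 → ∃ a b : ℝ, z = a • x + b • y := by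
  set K : Submodule ℝ V := Submodule.span ℝ {x, y} with hK
  have hKtop : K ≠ ⊤ := by
    intro ht
    have h1 : Module.finrank ℝ K ≤ 2 := by
      have := finrank_span_le_card (R := ℝ) ({x, y} : Set V)
      refine this.trans ?_
      rw [Set.toFinset_card]
      have : Fintype.card ({x, y} : Set V) ≤ 2 := by
        rw [← Set.toFinset_card]
        simpa using Finset.card_le_two (a := x) (b := y)
      exact this
    rw [ht] at h1
    simp at h1
  have hne : Kᗮ ≠ ⊥ := by
    intro hb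
    exact hKtop (Submodule.orthogonal_eq_bot_iff.1 hb)
  obtain ⟨n, hn, hn0⟩ := Submodule.exists_mem_ne_zero_of_ne_bot hne
  have hx : inner ℝ n x = 0 := by
    rw [real_inner_comm]
    exact hn x (Submodule.subset_span (by simp))
  have hy : inner ℝ n y = 0 := by
    rw [real_inner_comm]
    exact hn y (Submodule.subset_span (by simp))
  refine ⟨n, hn0, hx, hy, ?_⟩
  have hnn : (inner ℝ n n : ℝ) ≠ 0 := by rwa [ne_eq, inner_self_eq_zero]
  have hi : LinearIndependent ℝ ![n, x, y] := by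
    rw [LinearIndependent.pair_iff] at h
    rw [Fintype.linearIndependent_iff]
    intro g hg
    simp only [Fin.sum_univ_three, Matrix.cons_val_zero, Matrix.cons_val_one, Matrix.cons_val_two,
      Matrix.head_cons, Matrix.tail_cons] at hg
    have g0 : g 0 = 0 := by
      have := congrArg (fun v => (inner ℝ n v : ℝ)) hg
      simp only [inner_add_right, inner_smul_right, hx, hy, mul_zero, add_zero,
        inner_zero_right, mul_eq_zero] at this
      exact this.resolve_right hnn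
    have := h (g 1) (g 2) (by rw [← hg, g0, zero_smul, zero_add])
    intro i
    fin_cases i
    · exact g0
    · exact this.1
    · exact this.2
  intro z hz
  let b := basisOfLinearIndependentOfCardEqFinrank hi (by simp)
  have hb0 : b 0 = n := by simp [b]
  have hb1 : b 1 = x := by simp [b]
  have hb2 : b 2 = y := by simp [b]
  have hs := b.sum_repr z
  rw [Fin.sum_univ_three, hb0, hb1, hb2] at hs
  refine ⟨b.repr z 1, b.repr z 2, ?_⟩
  have e : b.repr z 0 = 0 := by
    have := congrArg (fun v => (inner ℝ n v : ℝ)) hs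
    simp only [inner_add_right, inner_smul_right, hx, hy, mul_zero, add_zero, hz,
      mul_eq_zero] at this
    exact this.resolve_right hnn
  rw [e, zero_smul, zero_add] at hs
  exact hs.symm

theorem line' (hc : S_circ) (B : FB d L) (x y : V) (h : LinearIndependent ℝ ![x, y]) :
    ∃ l : ℝ → ℝ,
    ContinuousOn l (Icc 0 Real.pi) ∧ StrictMonoOn l (Icc 0 Real.pi) ∧ l 0 = 0 ∧ l Real.pi = L ∧
    ∀ s ∈ Icc 0 Real.pi, ∀ t ∈ Icc 0 Real.pi,
      d (N (Real.cos s • x + Real.sin s • y)) (N (Real.cos t • x + Real.sin t • y)) =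
        min |l s - l t| (L - |l s - l t|) := by
  obtain ⟨n, hn, hnx, hny, hnz⟩ := exists_normal h
  obtain ⟨γ, hγ1, hγ2, hγ3⟩ := B.geod n hn
  rw [LinearIndependent.pair_iff] at h
  obtain ⟨c, hcd⟩ : ∃ c : ℝ → V, ∀ t, c t = Real.cos t • x + Real.sin t • y := ⟨_, fun _ => rfl⟩
  have hc0 : ∀ t, c t ≠ 0 := by
    intro t ht
    rw [hcd] at ht
    obtain ⟨h1, h2⟩ := h _ _ ht
    have := Real.sin_sq_add_cos_sq t
    rw [h1, h2] at this
    norm_num at this
  have hNc : ∀ t, N (c t) ∈ Metric.sphere (0:V) 1 := fun t => N_mem (hc0 t)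
  have hin : ∀ t, inner ℝ n (N (c t)) = 0 := by
    intro t
    rw [N, inner_smul_right, hcd, inner_add_right, inner_smul_right, inner_smul_right, hnx, hny]
    simp
  choose g hg using fun t => hγ2 (N (c t)) (hNc t) (hin t)
  have hg' : ∀ t, N (c t) = γ (g t) ∨ N (c t) = -γ (g t) := by
    intro t
    rcases hg t with h | h
    · left; exact h.symm
    · right; rw [h, neg_neg]
  have hdd : ∀ s t, d (N (c s)) (N (c t)) = ⨅ k : ℤ, |g s - g t - k * L| := by
    intro s t
    rw [pm B (hγ1 (g s)).1 (hγ1 (g t)).1 (hg' s) (hg' t), hγ3]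
  have hccont : Continuous c := by
    have : c = fun t => Real.cos t • x + Real.sin t • y := funext hcd
    rw [this]
    exact (Real.continuous_cos.smul continuous_const).add
      (Real.continuous_sin.smul continuous_const)
  have hπ : (0:ℝ) ≤ Real.pi := Real.pi_pos.le
  suffices hl : ∃ l : ℝ → ℝ, ContinuousOn l (Icc 0 Real.pi) ∧ StrictMonoOn l (Icc 0 Real.pi) ∧
      l 0 = 0 ∧ l Real.pi = L ∧ ∀ s ∈ Icc 0 Real.pi, ∀ t ∈ Icc 0 Real.pi,
      (⨅ k : ℤ, |g s - g t - k * L|) = min |l s - l t| (L - |l s - l t|) by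
    obtain ⟨l, l1, l2, l3, l4, l5⟩ := hl
    refine ⟨l, l1, l2, l3, l4, ?_⟩
    intro s hs t ht
    rw [← hcd, ← hcd, hdd, l5 s hs t ht]
  refine hc L B.pos g ?_ ?_ ?_
  · have : (fun p : ℝ × ℝ => ⨅ k : ℤ, |g p.1 - g p.2 - k * L|) =
        (fun p : V × V => d (N p.1) (N p.2)) ∘ fun p : ℝ × ℝ => (c p.1, c p.2) := by
      ext p
      exact (hdd _ _).symm
    rw [this]
    refine (cont' B).comp ?_ ?_
    · exact ((hccont.comp continuous_fst).prodMk (hccont.comp continuous_snd)).continuousOn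
    · intro p _
      exact ⟨hc0 _, hc0 _⟩
  · intro s hs t ht
    rw [← hdd, zero' B _ _ (hc0 s) (hc0 t)]
    constructor
    · intro hi
      rw [LinearIndependent.pair_iff' (hc0 s)] at hi
      push Not at hi
      obtain ⟨a, ha⟩ := hi
      rw [hcd, hcd] at ha
      have e := h (a * Real.cos s - Real.cos t) (a * Real.sin s - Real.sin t) (by
        have : (a * Real.cos s - Real.cos t) • x + (a * Real.sin s - Real.sin t) • y =
          a • (Real.cos s • x + Real.sin s • y) - (Real.cos t • x + Real.sin t • y) := by module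
        rw [this, ha, sub_self])
      have hsin : Real.sin (t - s) = 0 := by
        rw [Real.sin_sub]
        have e1 : Real.cos t = a * Real.cos s := by linarith [e.1]
        have e2 : Real.sin t = a * Real.sin s := by linarith [e.2]
        rw [e1, e2]; ring
      rw [Real.sin_eq_zero_iff] at hsin
      obtain ⟨m, hm⟩ := hsin
      have hm1 : (m:ℝ) ≤ 1 := by
        by_contra hh
        push Not at hh
        have : Real.pi < m * Real.pi := by nlinarith [Real.pi_pos]
        linarith [hs.1, ht.2]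
      have hm2 : (-1:ℝ) ≤ m := by
        by_contra hh
        push Not at hh
        have : m * Real.pi < -Real.pi := by nlinarith [Real.pi_pos]
        linarith [hs.2, ht.1]
      have hm1' : m ≤ 1 := by exact_mod_cast hm1
      have hm2' : -1 ≤ m := by exact_mod_cast hm2
      interval_cases m
      · right; right
        norm_num at hm
        exact ⟨by linarith [hs.2, ht.1], by linarith [hs.2, ht.1]⟩
      · left
        norm_num at hm
        linarith
      · right; left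
        norm_num at hm
        exact ⟨by linarith [hs.1, ht.2], by linarith [hs.1, ht.2]⟩
    · intro hst hi
      rw [LinearIndependent.pair_iff] at hi
      rcases hst with rfl | ⟨rfl, rfl⟩ | ⟨rfl, rfl⟩
      · have := (hi 1 (-1) (by module)).1
        norm_num at this
      · have := (hi 1 1 (by rw [hcd, hcd]; simp)).1
        norm_num at this
      · have := (hi 1 1 (by rw [hcd, hcd]; simp)).1
        norm_num at this
  · intro r
    obtain ⟨a, b, hab⟩ := hnz (γ r) (hγ1 r).2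
    have hγ0 : γ r ≠ 0 := ne_of_mem (hγ1 r).1
    -- polar coordinates
    have key : ∀ a b : ℝ, 0 ≤ b → (a ≠ 0 ∨ b ≠ 0) → ∃ t ∈ Icc 0 Real.pi, ∃ ρ : ℝ, ρ ≠ 0 ∧
        a = ρ * Real.cos t ∧ b = ρ * Real.sin t := by
      intro a b hb hab
      set ρ := Real.sqrt (a ^ 2 + b ^ 2) with hρ
      have hpos : 0 < a ^ 2 + b ^ 2 := by
        rcases hab with h | h
        · have := sq_nonneg b; have := pow_pos (abs_pos.2 h) 2; rw [sq_abs] at this; linarith
        · have := sq_nonneg a; have := pow_pos (abs_pos.2 h) 2; rw [sq_abs] at this; linarith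
      have hρ0 : 0 < ρ := Real.sqrt_pos.2 hpos
      have hρ2 : ρ ^ 2 = a ^ 2 + b ^ 2 := Real.sq_sqrt hpos.le
      have hle : |a / ρ| ≤ 1 := by
        rw [abs_div, abs_of_pos hρ0, div_le_one hρ0]
        apply abs_le_of_sq_le_sq _ hρ0.le
        rw [hρ2]; linarith [sq_nonneg b]
      have hle' := abs_le.1 hle
      have hcos : Real.cos (Real.arccos (a / ρ)) = a / ρ := Real.cos_arccos hle'.1 hle'.2
      refine ⟨Real.arccos (a / ρ), ⟨Real.arccos_nonneg _, Real.arccos_le_pi _⟩, ρ, hρ0.ne', ?_, ?_⟩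
      · rw [hcos]; field_simp
      · rw [Real.sin_arccos]
        have e : 1 - (a / ρ) ^ 2 = (b / ρ) ^ 2 := by
          field_simp
          linarith
        rw [e, Real.sqrt_sq (div_nonneg hb hρ0.le)]
        field_simp
    have key2 : ∃ t ∈ Icc 0 Real.pi, ∃ ρ : ℝ, ρ ≠ 0 ∧ a = ρ * Real.cos t ∧ b = ρ * Real.sin t := by
      have hab0 : a ≠ 0 ∨ b ≠ 0 := by
        by_contra hh
        push Not at hh
        rw [hh.1, hh.2] at hab
        simp at hab
        exact hγ0 hab
      rcases le_total 0 b with hb | hb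
      · exact key a b hb hab0
      · obtain ⟨t, ht, ρ, h1, h2, h3⟩ := key (-a) (-b) (by linarith) (by simpa using hab0)
        exact ⟨t, ht, -ρ, neg_ne_zero.2 h1, by linarith, by linarith⟩
    obtain ⟨t, ht, ρ, hρ, rfl, rfl⟩ := key2
    refine ⟨t, ht, ?_⟩
    have e : γ r = ρ • c t := by rw [hab, hcd]; module
    have e2 : γ r = N (c t) ∨ γ r = -N (c t) := by
      rw [← N_of_mem (hγ1 r).1, e]
      exact N_smul hρ
    have e3 : γ (g t) = N (c t) ∨ γ (g t) = -N (c t) := hg t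
    rw [← hγ3, pm B (hNc t) (hNc t) e3 e2]
    exact (B.zero _ (hNc t) _ (hNc t)).2 (Or.inl rfl)

theorem indep3 {x y z : V} (hx : x ≠ 0) (hy : y ≠ 0) (hz : z ≠ 0)
    (h : LinearIndependent ℝ ![x, y, z]) : LinearIndependent ℝ ![N x, N y, N z] := by
  have nx : ‖x‖⁻¹ ≠ 0 := inv_ne_zero (norm_ne_zero_iff.2 hx)
  have ny : ‖y‖⁻¹ ≠ 0 := inv_ne_zero (norm_ne_zero_iff.2 hy)
  have nz : ‖z‖⁻¹ ≠ 0 := inv_ne_zero (norm_ne_zero_iff.2 hz)
  rw [Fintype.linearIndependent_iff] at h ⊢
  intro g hg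
  simp only [Fin.sum_univ_three, Matrix.cons_val_zero, Matrix.cons_val_one, Matrix.cons_val_two,
      Matrix.head_cons, Matrix.tail_cons, N, smul_smul] at hg
  have := h ![g 0 * ‖x‖⁻¹, g 1 * ‖y‖⁻¹, g 2 * ‖z‖⁻¹] (by
    simp only [Fin.sum_univ_three, Matrix.cons_val_zero, Matrix.cons_val_one, Matrix.cons_val_two,
      Matrix.head_cons, Matrix.tail_cons]
    exact hg)
  intro i
  fin_cases i
  · exact (mul_eq_zero.1 (this 0)).resolve_right nx
  · exact (mul_eq_zero.1 (this 1)).resolve_right ny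
  · exact (mul_eq_zero.1 (this 2)).resolve_right nz

theorem conic' (B : FB d L) (φ : V →ₗ[ℝ] ℝ) (hφ : φ ≠ 0) (F : V) (hF0 : φ F ≠ 0) :
    ∃ u v w : V →ₗ[ℝ] ℝ, LinearIndependent ℝ ![u, v, w] ∧
      ∀ X : V, X ≠ 0 → (d (N X) (N F) = hF (fun x y => d (N x) (N y)) φ X ↔ u X * w X = (v X) ^ 2) := by
  obtain ⟨n, hn⟩ : ∃ n : V, ∀ x, φ x = inner ℝ n x := by
    refine ⟨(InnerProductSpace.toDual ℝ V).symm (LinearMap.toContinuousLinearMap φ), ?_⟩
    intro x
    rw [InnerProductSpace.toDual_symm_apply]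
    rfl
  have hn0 : n ≠ 0 := by
    rintro rfl
    apply hφ
    ext x
    rw [hn]
    simp
  have hF' : F ≠ 0 := by rintro rfl; simp at hF0
  have hFn : inner ℝ n (N F) ≠ 0 := by
    rw [N, inner_smul_right, ← hn]
    exact mul_ne_zero (inv_ne_zero (norm_ne_zero_iff.2 hF')) hF0
  obtain ⟨u, v, w, hi, hset⟩ := B.conic n hn0 (N F) (N_mem hF') hFn
  refine ⟨innerₗ V u, innerₗ V v, innerₗ V w, ?_, ?_⟩
  · have hinj : Function.Injective (innerₗ V : V →ₗ[ℝ] V →ₗ[ℝ] ℝ) := by
      intro a b hab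
      have := fun x => congrArg (fun f : V →ₗ[ℝ] ℝ => f x) hab
      simp only [innerₗ_apply_apply] at this
      exact ext_inner_right ℝ this
    have := hi.map' (innerₗ V) (LinearMap.ker_eq_bot.2 hinj)
    have he : (![innerₗ V u, innerₗ V v, innerₗ V w] : Fin 3 → (V →ₗ[ℝ] ℝ)) =
        (innerₗ V : V →ₗ[ℝ] V →ₗ[ℝ] ℝ) ∘ ![u, v, w] := by
      funext i
      fin_cases i <;> rfl
    rw [he]
    exact this
  · intro X hX
    have hmem : ∀ Z ∈ Metric.sphere (0:V) 1,
        (d Z (N F) = sInf ((fun Y => d Z Y) '' {Y | Y ∈ Metric.sphere (0 : V) 1 ∧ inner ℝ n Y = 0})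
          ↔ inner ℝ u Z * inner ℝ w Z = (inner ℝ v Z) ^ 2) := by
      intro Z hZ
      have := Set.ext_iff.1 hset Z
      simp only [Set.mem_ofPred_eq, hZ, true_and] at this
      exact this
    have h1 := hmem (N X) (N_mem hX)
    have himg : (fun Y => d (N X) Y) '' {Y | Y ∈ Metric.sphere (0 : V) 1 ∧ inner ℝ n Y = 0} =
        (fun Y => d (N X) (N Y)) '' {Y | Y ≠ 0 ∧ φ Y = 0} := by
      ext r
      constructor
      · rintro ⟨Y, ⟨hY1, hY2⟩, rfl⟩
        refine ⟨Y, ⟨ne_of_mem hY1, by rw [hn]; exact hY2⟩, ?_⟩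
        show d (N X) (N Y) = d (N X) Y
        rw [N_of_mem hY1]
      · rintro ⟨Y, ⟨hY1, hY2⟩, rfl⟩
        refine ⟨N Y, ⟨N_mem hY1, ?_⟩, rfl⟩
        rw [N, inner_smul_right, ← hn, hY2, mul_zero]
    rw [himg] at h1
    have hF1 : hF (fun x y => d (N x) (N y)) φ X =
        sInf ((fun Y => d (N X) (N Y)) '' {Y | Y ≠ 0 ∧ φ Y = 0}) := rfl
    rw [hF1, h1]
    simp only [innerₗ_apply_apply]
    have nX : ‖X‖⁻¹ ≠ 0 := inv_ne_zero (norm_ne_zero_iff.2 hX)
    have e : ∀ a : V, inner ℝ a (N X) = ‖X‖⁻¹ * inner ℝ a X := by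
      intro a; rw [N, inner_smul_right]
    rw [e, e, e]
    constructor
    · intro h
      have : (‖X‖⁻¹ * ‖X‖⁻¹) * (inner ℝ u X * inner ℝ w X) =
        (‖X‖⁻¹ * ‖X‖⁻¹) * (inner ℝ v X) ^ 2 := by linarith
      exact mul_left_cancel₀ (mul_ne_zero nX nX) this
    · intro h
      linear_combination (‖X‖⁻¹ * ‖X‖⁻¹) * h

theorem T_transB (h : S_circ) : S_transB := by
  intro d L B
  refine
  { lam := B.pos
    hom := ?_
    symm := ?_
    zero := ?_
    tri := ?_
    cont := cont' B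
    line := ?_
    strict := ?_
    conic := ?_ }
  · intro x y hx hy c hc
    exact pm B (N_mem hx) (N_mem hy) (N_smul hc) (Or.inl rfl)
  · intro x y hx hy
    exact B.symm _ (N_mem hx) _ (N_mem hy)
  · intro x y hx hy
    exact zero' B x y hx hy
  · intro x y z hx hy hz
    exact B.tri _ (N_mem hx) _ (N_mem hy) _ (N_mem hz)
  · intro x y hi
    exact line' h B x y hi
  · intro x y z hi
    have hx : x ≠ 0 := hi.ne_zero 0
    have hy : y ≠ 0 := hi.ne_zero 1
    have hz : z ≠ 0 := hi.ne_zero 2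
    exact B.strict _ (N_mem hx) _ (N_mem hy) _ (N_mem hz) (indep3 hx hy hz hi)
  · intro φ hφ F hF0
    exact conic' B φ hφ F hF0

end Pool.Agent.W391.PMB.Tr
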